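import Pool.Agent.N869.QA.L.Stm
import Pool.Agent.N637.QT.MQ

/-!
# Project QA (helper869): the lower bound for the class and the degenerate colourings (helper886)

`t_WCLS (h1 : S_WLOW) (h2 : S_WH) : S_WCLS` and `t_WDEG (h : S_WALL) : S_WDEG`.
-/

set_option autoImplicit false
set_option linter.unusedVariables false

open scoped Classical

namespace Pool.Agent.N886.QA.Cls

open Finset
open Pool.Agent.N869.QT.G (sys ClC exC pr Qn ET)
open Pool.Agent.N869.QA.L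

variable {R : Type}

lemma L1_ge {X : ℕ} (h : 1 ≤ X) : 1 ≤ L1 X := by
  unfold L1
  have : 0 ≤ Real.log X := Real.log_nonneg (by exact_mod_cast h)
  linarith

/-- `L1` tends to infinity -/
lemma L1_large (K : ℝ) : ∃ X₁ : ℕ, 1 ≤ X₁ ∧ ∀ X : ℕ, X₁ ≤ X → K ≤ L1 X := by
  have h : Filter.Tendsto (fun X : ℕ => Real.log (X : ℝ)) Filter.atTop Filter.atTop :=
    Real.tendsto_log_atTop.comp tendsto_natCast_atTop_atTop
  obtain ⟨X₁, hX⟩ := Filter.eventually_atTop.1 (h.eventually_ge_atTop K)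
  refine ⟨max X₁ 1, le_max_right _ _, fun X hX' => ?_⟩
  have := hX X (le_trans (le_max_left _ _) hX')
  unfold L1
  linarith

/-- `L1 ^ (-1/3)` tends to zero -/
lemma L1_small (η : ℝ) (hη : 0 < η) : ∃ X₁ : ℕ, 1 ≤ X₁ ∧ ∀ X : ℕ, X₁ ≤ X →
    L1 X ^ (-(1 / 3) : ℝ) ≤ η := by
  obtain ⟨X₁, h1, hX⟩ := L1_large (η ^ (-3 : ℝ))
  refine ⟨X₁, h1, fun X hX' => ?_⟩
  have h := hX X hX'
  have hp : (0 : ℝ) < η ^ (-3 : ℝ) := Real.rpow_pos_of_pos hη _
  calc L1 X ^ (-(1 / 3) : ℝ) ≤ (η ^ (-3 : ℝ)) ^ (-(1 / 3) : ℝ) :=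
        Real.rpow_le_rpow_of_nonpos hp h (by norm_num)
    _ = η := by
        rw [← Real.rpow_mul hη.le]
        norm_num

lemma pr_nonneg {Q : Type} [Fintype Q] [Nonempty Q] (S : Finset R) (P : (R → Q) → Prop) :
    0 ≤ pr S P := by
  unfold pr
  positivity

lemma card_ge {n : ℕ} (hn : 2 ≤ n) : 2 ≤ Fintype.card (Qn n) := by
  have h : Fintype.card (Qn n) = 2 ^ n - 1 := by
    have e : Fintype.card (Qn n) = (univ.filter fun q : Finset (Fin n) => q.Nonempty).card :=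
      Fintype.card_subtype _
    rw [e]
    have : (univ.filter fun q : Finset (Fin n) => q.Nonempty) = univ.erase ∅ := by
      ext q
      simp [Finset.nonempty_iff_ne_empty]
    rw [this, card_erase_of_mem (mem_univ _), card_univ, Fintype.card_finset, Fintype.card_fin]
  rw [h]
  have : 2 ^ 2 ≤ 2 ^ n := Nat.pow_le_pow_right (by norm_num) hn
  omega

theorem t_WDEG (h : S_WALL) : S_WDEG := by
  intro R G D hU n hn _ ε hε
  set r := Fintype.card (Qn n) with hr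
  have hr2 : 2 ≤ r := card_ge hn
  obtain ⟨C, hC1, hC⟩ := h R G D hU (r - 1) (by omega)
  obtain ⟨X₁, h1, hX⟩ := L1_large (r * C / ε)
  refine ⟨X₁, fun X hX' => ?_⟩
  have hXp : 1 ≤ X := le_trans h1 hX'
  have hL := L1_ge hXp
  have hL0 : 0 < L1 X := by linarith
  have hrR : (2 : ℝ) ≤ r := by exact_mod_cast hr2
  have e1 : ∀ S ∈ SAg G X, (r : ℝ) ^ S.card *
      pr S (fun γ : R → Qn n => ∃ T : Qn n, sys γ ET S T = ∅) ≤
      r * ((r - 1 : ℕ) : ℝ) ^ S.card := by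
    intro S _
    have hp := Pool.Agent.N637.QT.MQ.pr_deg (n := n) S
    rw [← hr] at hp
    have hc : ((r - 1 : ℕ) : ℝ) = (r : ℝ) - 1 := by
      rw [Nat.cast_sub (by omega)]; simp
    have hrp : (0 : ℝ) < (r : ℝ) ^ S.card := by positivity
    calc (r : ℝ) ^ S.card * pr S (fun γ : R → Qn n => ∃ T : Qn n, sys γ ET S T = ∅) ≤
          (r : ℝ) ^ S.card * (r * (((r : ℝ) - 1) / r) ^ S.card) :=
            mul_le_mul_of_nonneg_left hp hrp.le
      _ = r * ((r - 1 : ℕ) : ℝ) ^ S.card := by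
          rw [div_pow, hc]
          field_simp
  have e2 : ∑ S ∈ SAg G X, (r : ℝ) ^ S.card *
      pr S (fun γ : R → Qn n => ∃ T : Qn n, sys γ ET S T = ∅) ≤ r * WS G (r - 1) X := by
    unfold WS
    rw [mul_sum]
    exact sum_le_sum e1
  have e3 := hC X hXp
  have e4 : L1 X ^ (r - 1) = L1 X * L1 X ^ (r - 1 - 1) := by
    rw [← pow_succ']
    congr 1
    omega
  have e5 : r * C ≤ ε * L1 X := by
    have := hX X hX'
    rw [div_le_iff₀ hε] at this
    linarith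
  have hP : 0 ≤ (X : ℝ) * L1 X ^ (r - 1 - 1) := by positivity
  calc _ ≤ r * WS G (r - 1) X := e2
    _ ≤ r * (C * (X * L1 X ^ (r - 1 - 1))) := by
        apply mul_le_mul_of_nonneg_left e3
        positivity
    _ = (r * C) * (X * L1 X ^ (r - 1 - 1)) := by ring
    _ ≤ (ε * L1 X) * (X * L1 X ^ (r - 1 - 1)) := mul_le_mul_of_nonneg_right e5 hP
    _ = ε * (X * L1 X ^ (r - 1)) := by rw [e4]; ring

/-- the product of `g` is at least `1/3` when at most one element has `tt π = 1` -/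
lemma prod_third (tt : R → ZMod 2) (S : Finset R) (h : (S.filter fun π => tt π = 1).card < 2) :
    1 / 3 ≤ ∏ π ∈ S, (if tt π = 1 then (1 / 3 : ℝ) else 1) := by
  rw [prod_ite, prod_const, prod_const_one, mul_one]
  interval_cases hh : (S.filter fun π => tt π = 1).card <;> norm_num

theorem t_WCLS (h1 : S_WLOW) (h2 : S_WH) : S_WCLS := by
  intro R G D c X₀ hU hc hLo tt B hB hSav n hn _
  set r := Fintype.card (Qn n) with hr
  have hr2 : 2 ≤ r := card_ge hn
  have hrR : (2 : ℝ) ≤ r := by exact_mod_cast hr2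
  obtain ⟨c', X₁, hc', hX₁⟩ := h1 R G D c X₀ hU hc hLo r (by omega)
  obtain ⟨C, hC1, hC⟩ := h2 R G D hU r (by omega)
  have hη : 0 < c' / (2 * (3 * (C * B) + 1)) := by positivity
  obtain ⟨X₂, h12, hX₂⟩ := L1_small _ hη
  refine ⟨1 / r ^ 2 * (c' / 2), max X₁ X₂, by positivity, fun X hX => ?_⟩
  have hXa : X₁ ≤ X := le_trans (le_max_left _ _) hX
  have hXb : X₂ ≤ X := le_trans (le_max_right _ _) hX
  have hXp : 1 ≤ X := le_trans h12 hXb
  have hL := L1_ge hXp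
  have hL0 : 0 < L1 X := by linarith
  have hlow := hX₁ X hXa
  have hs := hX₂ X hXb
  set g : R → ℝ := fun π => if tt π = 1 then 1 / 3 else 1 with hg
  have hgb : ∀ π, G.Pq π → 0 ≤ g π ∧ g π ≤ 1 := by
    intro π _
    simp only [hg]
    split_ifs <;> norm_num
  have hup := hC g B hB hgb hSav X hXp
  -- termwise
  have e1 : ∀ S ∈ SAg G X, 1 / (r : ℝ) ^ 2 * ((r : ℝ) ^ S.card - 3 * ((r : ℝ) ^ S.card *
      ∏ π ∈ S, g π)) ≤ (r : ℝ) ^ S.card * pr S (fun γ : R → Qn n => ClC tt γ ET S) := by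
    intro S _
    have hrp : (0 : ℝ) < (r : ℝ) ^ S.card := by positivity
    have hgn : 0 ≤ ∏ π ∈ S, g π := by
      apply prod_nonneg
      intro π _
      simp only [hg]
      split_ifs <;> norm_num
    by_cases h : 2 ≤ (S.filter fun π => tt π = 1).card
    · have hp := Pool.Agent.N637.QT.MQ.pr_class tt S hn h
      rw [← hr] at hp
      calc 1 / (r : ℝ) ^ 2 * ((r : ℝ) ^ S.card - 3 * ((r : ℝ) ^ S.card * ∏ π ∈ S, g π)) ≤
            1 / (r : ℝ) ^ 2 * (r : ℝ) ^ S.card := by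
              apply mul_le_mul_of_nonneg_left _ (by positivity)
              have : 0 ≤ (r : ℝ) ^ S.card * ∏ π ∈ S, g π := by positivity
              linarith
        _ = (r : ℝ) ^ S.card * (1 / (r : ℝ) ^ 2) := by ring
        _ ≤ _ := mul_le_mul_of_nonneg_left hp hrp.le
    · have ht := prod_third tt S (by omega)
      have h0 : 0 ≤ (r : ℝ) ^ S.card * pr S (fun γ : R → Qn n => ClC tt γ ET S) :=
        mul_nonneg hrp.le (pr_nonneg _ _)
      refine le_trans ?_ h0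
      apply mul_nonpos_of_nonneg_of_nonpos (by positivity)
      have : (r : ℝ) ^ S.card * (1 / 3) ≤ (r : ℝ) ^ S.card * ∏ π ∈ S, g π :=
        mul_le_mul_of_nonneg_left ht hrp.le
      linarith
  have e2 : 1 / (r : ℝ) ^ 2 * (WS G r X - 3 * ∑ S ∈ SAg G X, (r : ℝ) ^ S.card * ∏ π ∈ S, g π) ≤
      ∑ S ∈ SAg G X, (r : ℝ) ^ S.card * pr S (fun γ : R → Qn n => ClC tt γ ET S) := by
    unfold WS
    rw [mul_sum, ← sum_sub_distrib, mul_sum]
    exact sum_le_sum e1
  refine le_trans ?_ e2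
  have hP : 0 ≤ (X : ℝ) * L1 X ^ (r - 1) := by positivity
  have e3 : 3 * ∑ S ∈ SAg G X, (r : ℝ) ^ S.card * ∏ π ∈ S, g π ≤
      c' / 2 * (X * L1 X ^ (r - 1)) := by
    have hCB : 0 ≤ C * B := mul_nonneg (by linarith) hB
    have e4 : (3 * (C * B)) * (c' / (2 * (3 * (C * B) + 1))) ≤ c' / 2 := by
      rw [mul_div_assoc', div_le_div_iff₀ (by positivity) (by norm_num)]
      nlinarith
    calc 3 * ∑ S ∈ SAg G X, (r : ℝ) ^ S.card * ∏ π ∈ S, g π ≤
          3 * (C * B * (X * (L1 X ^ (r - 1) * L1 X ^ (-(1 / 3) : ℝ)))) := by linarith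
      _ = (3 * (C * B)) * L1 X ^ (-(1 / 3) : ℝ) * (X * L1 X ^ (r - 1)) := by ring
      _ ≤ (3 * (C * B)) * (c' / (2 * (3 * (C * B) + 1))) * (X * L1 X ^ (r - 1)) := by
          apply mul_le_mul_of_nonneg_right _ hP
          exact mul_le_mul_of_nonneg_left hs (by positivity)
      _ ≤ c' / 2 * (X * L1 X ^ (r - 1)) := mul_le_mul_of_nonneg_right e4 hP
  have e5 : c' / 2 * (X * L1 X ^ (r - 1)) ≤
      WS G r X - 3 * ∑ S ∈ SAg G X, (r : ℝ) ^ S.card * ∏ π ∈ S, g π := by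
    linarith
  calc 1 / (r : ℝ) ^ 2 * (c' / 2) * (X * L1 X ^ (r - 1)) =
        1 / (r : ℝ) ^ 2 * (c' / 2 * (X * L1 X ^ (r - 1))) := by ring
    _ ≤ _ := mul_le_mul_of_nonneg_left e5 (by positivity)

end Pool.Agent.N886.QA.Cls
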