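import Pool.Agent.N869.QA.L.Stm

/-!
# Project QA: the saving for the weighted sums of a multiplicative function
-/

set_option autoImplicit false

open scoped Classical

namespace Pool.Agent.N886.QA

open Finset
open Pool.Agent.N869.QA.L

variable {R : Type} {G : GP R}

/-- the norm of a squarefree number -/
noncomputable def NN (G : GP R) (S : Finset R) : ℕ := ∏ π ∈ S, G.nrm π

lemma NN_pos {S : Finset R} (h : ∀ π ∈ S, G.Pq π) : 0 < NN G S :=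
  Finset.prod_pos fun π hπ => by
    have := G.two_le π (h π hπ)
    omega

lemma mem_iff {X : ℕ} {S : Finset R} : S ∈ SAg G X ↔ (∀ π ∈ S, G.Pq π) ∧ NN G S ≤ X := by
  unfold SAg
  rw [mem_filter, mem_powerset]
  constructor
  · rintro ⟨h1, h2⟩
    exact ⟨fun π hπ => ((G.mem X π).1 (h1 hπ)).2, h2⟩
  · rintro ⟨h1, h2⟩
    refine ⟨fun π hπ => (G.mem X π).2 ⟨?_, h1 π hπ⟩, h2⟩
    have h3 : G.nrm π ∣ NN G S := Finset.dvd_prod_of_mem _ hπ
    exact (Nat.le_of_dvd (NN_pos h1) h3).trans h2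

lemma NN_sdiff {M S : Finset R} (h : M ⊆ S) : NN G (S \ M) * NN G M = NN G S :=
  Finset.prod_sdiff h

/-- the pairs of a set and a subset -/
lemma pair_le {X : ℕ} (h1 h2 : Finset R → ℝ) (n1 : ∀ S, (∀ π ∈ S, G.Pq π) → 0 ≤ h1 S)
    (n2 : ∀ S, (∀ π ∈ S, G.Pq π) → 0 ≤ h2 S) :
    ∑ S ∈ SAg G X, ∑ M ∈ S.powerset, h1 M * h2 (S \ M) ≤
      ∑ M ∈ SAg G X, h1 M * ∑ S' ∈ SAg G (X / NN G M), h2 S' := by
  have e1 : ∑ M ∈ SAg G X, h1 M * ∑ S' ∈ SAg G (X / NN G M), h2 S' =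
      ∑ p ∈ (SAg G X).sigma fun M => SAg G (X / NN G M), h1 p.1 * h2 p.2 := by
    rw [Finset.sum_sigma]
    exact Finset.sum_congr rfl fun M _ => by rw [Finset.mul_sum]
  have e2 : ∑ S ∈ SAg G X, ∑ M ∈ S.powerset, h1 M * h2 (S \ M) =
      ∑ p ∈ (SAg G X).sigma fun S => S.powerset, h1 p.2 * h2 (p.1 \ p.2) := by
    rw [Finset.sum_sigma]
  rw [e1, e2]
  set i : (Σ _ : Finset R, Finset R) → (Σ _ : Finset R, Finset R) := fun p => ⟨p.2, p.1 \ p.2⟩ with hi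
  have hinj : Set.InjOn i ((SAg G X).sigma fun S => S.powerset) := by
    rintro ⟨S, M⟩ hp ⟨S', M'⟩ hp' h
    simp only [Finset.coe_sigma, Set.mem_sigma_iff, Finset.mem_coe, mem_powerset] at hp hp'
    simp only [hi, Sigma.mk.injEq, heq_eq_eq] at h
    obtain ⟨rfl, h⟩ := h
    have : S = S' := by
      rw [← Finset.sdiff_union_of_subset hp.2, h, Finset.sdiff_union_of_subset hp'.2]
    rw [this]
  have e3 : ∑ p ∈ (SAg G X).sigma fun S => S.powerset, h1 p.2 * h2 (p.1 \ p.2) =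
      ∑ q ∈ ((SAg G X).sigma fun S => S.powerset).image i, h1 q.1 * h2 q.2 := by
    rw [Finset.sum_image hinj]
  rw [e3]
  refine Finset.sum_le_sum_of_subset_of_nonneg ?_ ?_
  · intro q hq
    rw [mem_image] at hq
    obtain ⟨⟨S, M⟩, hp, rfl⟩ := hq
    rw [mem_sigma, mem_powerset, mem_iff] at hp
    obtain ⟨⟨hp1, hp2⟩, hp3⟩ := hp
    simp only at hp1 hp2 hp3
    rw [mem_sigma, mem_iff, mem_iff]
    have hM : ∀ π ∈ M, G.Pq π := fun π hπ => hp1 π (hp3 hπ)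
    have hS : NN G (S \ M) * NN G M ≤ X := by rw [NN_sdiff hp3]; exact hp2
    have hpos := NN_pos (G := G) (S := S \ M) fun π hπ => hp1 π (sdiff_subset hπ)
    refine ⟨⟨hM, ?_⟩, fun π hπ => hp1 π (sdiff_subset hπ), ?_⟩
    · exact (Nat.le_mul_of_pos_left _ hpos).trans hS
    · exact (Nat.le_div_iff_mul_le (NN_pos hM)).2 hS
  · rintro ⟨M, S'⟩ hq _
    rw [mem_sigma, mem_iff, mem_iff] at hq
    exact mul_nonneg (n1 _ hq.1.1) (n2 _ hq.2.1)

lemma L1_ge {X : ℕ} : 1 ≤ L1 X := by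
  unfold L1
  have : 0 ≤ Real.log X := Real.log_natCast_nonneg X
  linarith

lemma L1_mono {X Y : ℕ} (h0 : 1 ≤ X) (h : X ≤ Y) : L1 X ≤ L1 Y := by
  unfold L1
  have h1 : (0 : ℝ) < X := by exact_mod_cast h0
  have h2 : (X : ℝ) ≤ Y := by exact_mod_cast h
  linarith [Real.log_le_log h1 h2]

/-- comparison of the sum of `(1 + j) ^ (-1/3)` -/
lemma sum_third (J : ℕ) :
    ∑ j ∈ range (J + 1), ((1 : ℝ) + j) ^ (-(1 / 3) : ℝ) ≤ 3 / 2 * ((J : ℝ) + 1) ^ (2 / 3 : ℝ) := by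
  induction J with
  | zero => norm_num
  | succ J ih =>
    rw [sum_range_succ]
    have hx : (0 : ℝ) < (J : ℝ) + 1 := by positivity
    -- `(J+2)^(-1/3) ≤ (3/2) ((J+2)^(2/3) - (J+1)^(2/3))`
    have key : ((1 : ℝ) + ((J + 1 : ℕ) : ℝ)) ^ (-(1 / 3) : ℝ) ≤
        3 / 2 * (((J + 1 : ℕ) : ℝ) + 1) ^ (2 / 3 : ℝ) - 3 / 2 * ((J : ℝ) + 1) ^ (2 / 3 : ℝ) := by
      set y : ℝ := (J : ℝ) + 2 with hy
      have e1 : (1 : ℝ) + ((J + 1 : ℕ) : ℝ) = y := by push_cast; rw [hy]; ring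
      have e2 : ((J + 1 : ℕ) : ℝ) + 1 = y := by push_cast; rw [hy]; ring
      have e3 : (J : ℝ) + 1 = y - 1 := by rw [hy]; ring
      have hy1 : 1 < y := by rw [hy]; linarith
      rw [e1, e2, e3]
      -- concavity: (y-1)^(2/3) = y^(2/3) (1 - 1/y)^(2/3) ≤ y^(2/3) (1 - (2/3)/y)
      have hb : (1 + -(1 / y)) ^ (2 / 3 : ℝ) ≤ 1 + (2 / 3) * (-(1 / y)) := by
        refine rpow_one_add_le_one_add_mul_self ?_ (by norm_num) (by norm_num)
        rw [neg_le_neg_iff, div_le_one (by linarith)]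
        exact hy1.le
      have e4 : y - 1 = y * (1 + -(1 / y)) := by field_simp; ring
      have e5 : (y - 1) ^ (2 / 3 : ℝ) = y ^ (2 / 3 : ℝ) * (1 + -(1 / y)) ^ (2 / 3 : ℝ) := by
        rw [e4, Real.mul_rpow (by linarith)]
        have : 1 / y ≤ 1 := by rw [div_le_one (by linarith)]; exact hy1.le
        linarith
      have e6 : y ^ (-(1 / 3) : ℝ) = y ^ (2 / 3 : ℝ) * (1 / y) := by
        have e7 : 1 / y = y ^ (-1 : ℝ) := by rw [Real.rpow_neg_one, one_div]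
        rw [e7, ← Real.rpow_add (by linarith)]
        norm_num
      rw [e5, e6]
      have hp : 0 < y ^ (2 / 3 : ℝ) := by positivity
      nlinarith
    push_cast at key ⊢
    linarith

lemma log2_le {X : ℕ} (hX : 1 ≤ X) : ((Nat.log 2 X : ℕ) : ℝ) + 1 ≤ 2 * L1 X := by
  have h1 : 2 ^ Nat.log 2 X ≤ X := Nat.pow_log_le_self 2 (by omega)
  have h2 : ((2 : ℝ)) ^ Nat.log 2 X ≤ X := by exact_mod_cast h1
  have h3 : (Nat.log 2 X : ℝ) * Real.log 2 ≤ Real.log X := by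
    rw [← Real.log_pow]
    exact Real.log_le_log (by positivity) h2
  have h4 : 1 / 2 ≤ Real.log 2 := by
    have := Real.log_two_gt_d9
    linarith
  unfold L1
  have h5 : (0 : ℝ) ≤ Nat.log 2 X := by positivity
  nlinarith

lemma L1_log {Y : ℕ} (hY : 1 ≤ Y) : ((1 : ℝ) + (Nat.log 2 Y : ℕ)) / 2 ≤ L1 Y := by
  have h1 : 2 ^ Nat.log 2 Y ≤ Y := Nat.pow_log_le_self 2 (by omega)
  have h2 : ((2 : ℝ)) ^ Nat.log 2 Y ≤ Y := by exact_mod_cast h1
  have h3 : (Nat.log 2 Y : ℝ) * Real.log 2 ≤ Real.log Y := by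
    rw [← Real.log_pow]
    exact Real.log_le_log (by positivity) h2
  have h4 : 1 / 2 ≤ Real.log 2 := by
    have := Real.log_two_gt_d9
    linarith
  unfold L1
  have h5 : (0 : ℝ) ≤ Nat.log 2 Y := by positivity
  nlinarith

/-- the value of the bound in a block -/
lemma block_bound {Y : ℕ} (hY : 1 ≤ Y) :
    (Y : ℝ) * L1 Y ^ (-(1 / 3) : ℝ) ≤
      4 * 2 ^ Nat.log 2 Y * ((1 : ℝ) + (Nat.log 2 Y : ℕ)) ^ (-(1 / 3) : ℝ) := by
  have h1 := L1_log hY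
  have h2 : Y < 2 ^ (Nat.log 2 Y + 1) := Nat.lt_pow_succ_log_self (by norm_num) Y
  have h2' : (Y : ℝ) ≤ 2 * 2 ^ Nat.log 2 Y := by
    have : (Y : ℝ) ≤ 2 ^ (Nat.log 2 Y + 1) := by exact_mod_cast h2.le
    rw [pow_succ] at this
    linarith
  have h3 : L1 Y ^ (-(1 / 3) : ℝ) ≤ (((1 : ℝ) + (Nat.log 2 Y : ℕ)) / 2) ^ (-(1 / 3) : ℝ) :=
    Real.rpow_le_rpow_of_nonpos (by positivity) h1 (by norm_num)
  have h4 : (((1 : ℝ) + (Nat.log 2 Y : ℕ)) / 2) ^ (-(1 / 3) : ℝ) ≤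
      2 * ((1 : ℝ) + (Nat.log 2 Y : ℕ)) ^ (-(1 / 3) : ℝ) := by
    rw [Real.div_rpow (by positivity) (by norm_num), div_eq_mul_inv, mul_comm]
    refine mul_le_mul_of_nonneg_right ?_ (by positivity)
    rw [Real.rpow_neg (by norm_num), inv_inv]
    calc (2 : ℝ) ^ (1 / 3 : ℝ) ≤ 2 ^ (1 : ℝ) :=
          Real.rpow_le_rpow_of_exponent_le (by norm_num) (by norm_num)
      _ = 2 := by norm_num
  have h5 : 0 ≤ L1 Y ^ (-(1 / 3) : ℝ) := Real.rpow_nonneg (by linarith [L1_ge (X := Y)]) _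
  calc (Y : ℝ) * L1 Y ^ (-(1 / 3) : ℝ) ≤ (2 * 2 ^ Nat.log 2 Y) *
        (2 * ((1 : ℝ) + (Nat.log 2 Y : ℕ)) ^ (-(1 / 3) : ℝ)) := by
        refine mul_le_mul h2' (h3.trans h4) h5 (by positivity)
    _ = _ := by ring

lemma WS_mono_block {r : ℕ} {C : ℝ} (hC : 1 ≤ C) {X j : ℕ} (hj : 2 ^ j ≤ X)
    (hW : ∀ X : ℕ, 1 ≤ X → WS G r X ≤ C * (X * L1 X ^ (r - 1))) :
    WS G r (X / 2 ^ j) ≤ C * (X / 2 ^ j * L1 X ^ (r - 1)) := by
  have h1 : 1 ≤ X / 2 ^ j := (Nat.one_le_div_iff (by positivity)).2 hj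
  refine (hW _ h1).trans ?_
  have h2 : ((X / 2 ^ j : ℕ) : ℝ) ≤ (X : ℝ) / 2 ^ j := by
    have := @Nat.cast_div_le ℝ _ _ _ X (2 ^ j)
    push_cast at this
    exact this
  have h3 : L1 (X / 2 ^ j) ≤ L1 X := L1_mono h1 (Nat.div_le_self _ _)
  have h4 : 1 ≤ L1 (X / 2 ^ j) := L1_ge
  gcongr

/-- **QA-WH** -/
theorem t_WH (hA : S_WALL) : S_WH := by
  intro R G D hD r hr
  rcases Nat.lt_or_ge r 2 with hr2 | hr2
  · obtain rfl : r = 1 := by omega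
    refine ⟨1, le_refl _, fun g B hB hg hS X hX => ?_⟩
    have := hS X hX
    simpa using this
  obtain ⟨C, hC, hW⟩ := hA R G D hD (r - 1) (by omega)
  refine ⟨12 * C, by linarith, fun g B hB hg hS X hX => ?_⟩
  have hr1 : (0 : ℝ) ≤ (r : ℝ) - 1 := by
    have : (2 : ℝ) ≤ r := by exact_mod_cast hr2
    linarith
  have hrc : ((r - 1 : ℕ) : ℝ) = (r : ℝ) - 1 := by
    rw [Nat.cast_sub (by omega)]
    simp
  set h1 : Finset R → ℝ := fun M => ((r : ℝ) - 1) ^ M.card with hh1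
  set h2 : Finset R → ℝ := fun S => ∏ π ∈ S, g π with hh2
  have n1 : ∀ S : Finset R, (∀ π ∈ S, G.Pq π) → 0 ≤ h1 S := fun S _ => pow_nonneg hr1 _
  have n2 : ∀ S : Finset R, (∀ π ∈ S, G.Pq π) → 0 ≤ h2 S := fun S hS =>
    Finset.prod_nonneg fun π hπ => (hg π (hS π hπ)).1
  -- step 1
  have s1 : ∑ S ∈ SAg G X, (r : ℝ) ^ S.card * ∏ π ∈ S, g π ≤
      ∑ S ∈ SAg G X, ∑ M ∈ S.powerset, h1 M * h2 (S \ M) := by
    refine Finset.sum_le_sum fun S hSm => ?_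
    rw [mem_iff] at hSm
    have e1 : (r : ℝ) ^ S.card * ∏ π ∈ S, g π = ∏ π ∈ S, ((r : ℝ) * g π) := by
      rw [Finset.prod_mul_distrib, Finset.prod_const]
    have e2 : ∑ M ∈ S.powerset, h1 M * h2 (S \ M) = ∏ π ∈ S, (((r : ℝ) - 1) + g π) := by
      rw [Finset.prod_add]
      refine Finset.sum_congr rfl fun M _ => ?_
      rw [Finset.prod_const]
    rw [e1, e2]
    refine Finset.prod_le_prod (fun π hπ => ?_) (fun π hπ => ?_)
    · have := (hg π (hSm.1 π hπ)).1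
      positivity
    · have := (hg π (hSm.1 π hπ)).2
      nlinarith
  have s2 := pair_le (G := G) (X := X) h1 h2 n1 n2
  -- step 2: the saving
  have s3 : ∑ M ∈ SAg G X, h1 M * ∑ S' ∈ SAg G (X / NN G M), h2 S' ≤
      ∑ M ∈ SAg G X, h1 M * (B * (4 * 2 ^ Nat.log 2 (X / NN G M) *
        ((1 : ℝ) + (Nat.log 2 (X / NN G M) : ℕ)) ^ (-(1 / 3) : ℝ))) := by
    refine Finset.sum_le_sum fun M hM => ?_
    rw [mem_iff] at hM
    refine mul_le_mul_of_nonneg_left ?_ (n1 M hM.1)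
    have hY : 1 ≤ X / NN G M := (Nat.one_le_div_iff (NN_pos hM.1)).2 hM.2
    refine (hS _ hY).trans ?_
    exact mul_le_mul_of_nonneg_left (block_bound hY) hB
  -- step 3: blocks
  set J := Nat.log 2 X with hJ
  have hmaps : ∀ M ∈ SAg G X, Nat.log 2 (X / NN G M) ∈ range (J + 1) := by
    intro M hM
    rw [mem_range, Nat.lt_succ_iff]
    exact Nat.log_mono_right (Nat.div_le_self _ _)
  have s4 : ∑ M ∈ SAg G X, h1 M * (B * (4 * 2 ^ Nat.log 2 (X / NN G M) *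
        ((1 : ℝ) + (Nat.log 2 (X / NN G M) : ℕ)) ^ (-(1 / 3) : ℝ))) ≤
      ∑ j ∈ range (J + 1), (B * (4 * C * (X * L1 X ^ (r - 2)))) *
        ((1 : ℝ) + j) ^ (-(1 / 3) : ℝ) := by
    rw [← Finset.sum_fiberwise_of_maps_to hmaps]
    refine Finset.sum_le_sum fun j hj => ?_
    rw [mem_range, Nat.lt_succ_iff] at hj
    have hjX : 2 ^ j ≤ X := (Nat.pow_le_pow_right (by norm_num) hj).trans
      (Nat.pow_log_le_self 2 (by omega))
    have e1 : ∑ M ∈ (SAg G X).filter (fun M => Nat.log 2 (X / NN G M) = j),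
        h1 M * (B * (4 * 2 ^ Nat.log 2 (X / NN G M) *
          ((1 : ℝ) + (Nat.log 2 (X / NN G M) : ℕ)) ^ (-(1 / 3) : ℝ))) =
        (B * (4 * 2 ^ j * ((1 : ℝ) + j) ^ (-(1 / 3) : ℝ))) *
          ∑ M ∈ (SAg G X).filter (fun M => Nat.log 2 (X / NN G M) = j), h1 M := by
      rw [Finset.mul_sum]
      refine Finset.sum_congr rfl fun M hM => ?_
      rw [(mem_filter.1 hM).2]
      ring
    have e2 : ∑ M ∈ (SAg G X).filter (fun M => Nat.log 2 (X / NN G M) = j), h1 M ≤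
        WS G (r - 1) (X / 2 ^ j) := by
      unfold WS
      rw [hrc]
      refine Finset.sum_le_sum_of_subset_of_nonneg ?_ fun M _ _ => pow_nonneg hr1 _
      intro M hM
      rw [mem_filter, mem_iff] at hM
      obtain ⟨⟨hM1, hM2⟩, hM3⟩ := hM
      rw [mem_iff]
      refine ⟨hM1, ?_⟩
      have hY : 1 ≤ X / NN G M := (Nat.one_le_div_iff (NN_pos hM1)).2 hM2
      have h3 : 2 ^ j ≤ X / NN G M := by
        rw [← hM3]
        exact Nat.pow_log_le_self 2 (by omega)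
      rw [Nat.le_div_iff_mul_le (NN_pos hM1)] at h3
      rw [Nat.le_div_iff_mul_le (by positivity), mul_comm]
      exact h3
    have e3 := WS_mono_block (G := G) hC hjX hW
    have e4 : r - 1 - 1 = r - 2 := by omega
    rw [e4] at e3
    rw [e1]
    have hpos : 0 ≤ B * (4 * 2 ^ j * ((1 : ℝ) + j) ^ (-(1 / 3) : ℝ)) := by positivity
    calc (B * (4 * 2 ^ j * ((1 : ℝ) + j) ^ (-(1 / 3) : ℝ))) *
          ∑ M ∈ (SAg G X).filter (fun M => Nat.log 2 (X / NN G M) = j), h1 M ≤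
          (B * (4 * 2 ^ j * ((1 : ℝ) + j) ^ (-(1 / 3) : ℝ))) *
            (C * (X / 2 ^ j * L1 X ^ (r - 2))) :=
          mul_le_mul_of_nonneg_left (e2.trans e3) hpos
      _ = _ := by
          field_simp
  have hL1 : 1 ≤ L1 X := L1_ge
  have hL0 : 0 < L1 X := by linarith
  -- step 4: the sum over the blocks
  have s5 : ∑ j ∈ range (J + 1), (B * (4 * C * (X * L1 X ^ (r - 2)))) *
        ((1 : ℝ) + j) ^ (-(1 / 3) : ℝ) ≤
      (B * (4 * C * (X * L1 X ^ (r - 2)))) * (3 * L1 X ^ (2 / 3 : ℝ)) := by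
    rw [← Finset.mul_sum]
    refine mul_le_mul_of_nonneg_left ?_ (by positivity)
    refine (sum_third J).trans ?_
    have h3 : ((J : ℝ) + 1) ^ (2 / 3 : ℝ) ≤ (2 * L1 X) ^ (2 / 3 : ℝ) :=
      Real.rpow_le_rpow (by positivity) (log2_le hX) (by norm_num)
    have h4 : (2 * L1 X) ^ (2 / 3 : ℝ) ≤ 2 * L1 X ^ (2 / 3 : ℝ) := by
      rw [Real.mul_rpow (by norm_num) hL0.le]
      refine mul_le_mul_of_nonneg_right ?_ (by positivity)
      calc (2 : ℝ) ^ (2 / 3 : ℝ) ≤ 2 ^ (1 : ℝ) :=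
            Real.rpow_le_rpow_of_exponent_le (by norm_num) (by norm_num)
        _ = 2 := by norm_num
    linarith
  have e5 : L1 X ^ (r - 2) * L1 X ^ (2 / 3 : ℝ) = L1 X ^ (r - 1) * L1 X ^ (-(1 / 3) : ℝ) := by
    have e6 : r - 1 = (r - 2) + 1 := by omega
    rw [e6, pow_succ, mul_assoc]
    congr 1
    nth_rewrite 2 [← Real.rpow_one (L1 X)]
    rw [← Real.rpow_add hL0]
    norm_num
  calc ∑ S ∈ SAg G X, (r : ℝ) ^ S.card * ∏ π ∈ S, g π ≤ _ := s1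
    _ ≤ _ := s2
    _ ≤ _ := s3
    _ ≤ _ := s4
    _ ≤ _ := s5
    _ = 12 * C * B * (X * (L1 X ^ (r - 2) * L1 X ^ (2 / 3 : ℝ))) := by ring
    _ = _ := by rw [e5]

end Pool.Agent.N886.QA
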